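import Pool.Agent.Y969.GP.Def

set_option autoImplicit false

/-!
Project GP (helper969), job GP-TEL (helper22): the iterated contour shift over a product of paths.
-/

namespace Pool.Agent.Y22.GP

open Complex Filter Topology MeasureTheory Set Pool.Agent.Y969.GP

noncomputable section

/-- integral over a product of arbitrary paths with arbitrary weights -/
def J {K : ℕ} (P W : Fin K → ℝ → ℂ) (Ψ : (Fin K → ℂ) → ℂ) : ℂ :=
  ∫ θ : Fin K → ℝ, Ψ (fun j => P j (θ j)) * ∏ j, W j (θ j)

theorem J_integrable {K : ℕ} (P W W0 : Fin K → ℝ → ℂ) (D : Fin K → Set ℝ) (Ψ : (Fin K → ℂ) → ℂ)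
    (S : Set (Fin K → ℂ)) (hD : ∀ j, IsCompact (D j)) (hW : ∀ j, W j = (D j).indicator (W0 j))
    (hW0 : ∀ j, ContinuousOn (W0 j) (D j)) (hP : ∀ j, ContinuousOn (P j) (D j))
    (hΨ : ContinuousOn Ψ S) (hS : ∀ θ ∈ univ.pi D, (fun j => P j (θ j)) ∈ S) :
    Integrable (fun θ : Fin K → ℝ => Ψ (fun j => P j (θ j)) * ∏ j, W j (θ j)) := by
  have hc : IsCompact (univ.pi D) := isCompact_univ_pi hD
  have he : (fun θ : Fin K → ℝ => Ψ (fun j => P j (θ j)) * ∏ j, W j (θ j)) =
      (univ.pi D).indicator (fun θ => Ψ (fun j => P j (θ j)) * ∏ j, W0 j (θ j)) := by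
    funext θ
    by_cases h : θ ∈ univ.pi D
    · rw [indicator_of_mem h]
      congr 1
      refine Finset.prod_congr rfl fun j _ => ?_
      rw [hW j, indicator_of_mem (h j (mem_univ j))]
    · rw [indicator_of_notMem h]
      have h2 : ∃ j, θ j ∉ D j := by
        by_contra h3
        push Not at h3
        exact h fun j _ => h3 j
      obtain ⟨j, hj⟩ := h2
      have h0 : ∏ j, W j (θ j) = 0 := by
        refine Finset.prod_eq_zero (Finset.mem_univ j) ?_
        rw [hW j, indicator_of_notMem hj]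
      rw [h0, mul_zero]
  rw [he, integrable_indicator_iff hc.isClosed.measurableSet]
  refine ContinuousOn.integrableOn_compact hc ?_
  have hproj : ∀ j : Fin K, ContinuousOn (fun θ : Fin K → ℝ => θ j) (univ.pi D) := fun j =>
    (continuous_apply j).continuousOn
  have hmaps : ∀ j : Fin K, MapsTo (fun θ : Fin K → ℝ => θ j) (univ.pi D) (D j) := fun j θ h =>
    h j (mem_univ j)
  refine ContinuousOn.mul ?_ ?_
  · refine hΨ.comp ?_ hS
    exact continuousOn_pi.2 fun j => (hP j).comp (hproj j) (hmaps j)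
  · exact continuousOn_finsetProd _ fun j _ => (hW0 j).comp (hproj j) (hmaps j)

theorem prod_split {K : ℕ} (j : Fin (K + 1)) (P W : Fin (K + 1) → ℝ → ℂ)
    (Ψ : (Fin (K + 1) → ℂ) → ℂ) (x : ℝ) (θ' : Fin K → ℝ) :
    Ψ (fun i => P i ((j.insertNth x θ' : Fin (K + 1) → ℝ) i)) *
        ∏ i, W i ((j.insertNth x θ' : Fin (K + 1) → ℝ) i) =
      Ψ (j.insertNth (P j x) (fun i => P (j.succAbove i) (θ' i))) *
        (W j x * ∏ i, W (j.succAbove i) (θ' i)) := by
  congr 1
  · congr 1
    funext i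
    refine Fin.succAboveCases j ?_ ?_ i
    · simp
    · intro i; simp
  · rw [Fin.prod_univ_succAbove _ j]
    simp

theorem J_fubini {K : ℕ} (j : Fin (K + 1)) (P W : Fin (K + 1) → ℝ → ℂ)
    (Ψ : (Fin (K + 1) → ℂ) → ℂ)
    (hint : Integrable (fun θ : Fin (K + 1) → ℝ => Ψ (fun j => P j (θ j)) * ∏ j, W j (θ j))) :
    Integrable (fun θ' : Fin K → ℝ => ∫ x : ℝ,
      Ψ (j.insertNth (P j x) (fun i => P (j.succAbove i) (θ' i))) *
        (W j x * ∏ i, W (j.succAbove i) (θ' i))) ∧
    J P W Ψ = ∫ θ' : Fin K → ℝ, ∫ x : ℝ,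
      Ψ (j.insertNth (P j x) (fun i => P (j.succAbove i) (θ' i))) *
        (W j x * ∏ i, W (j.succAbove i) (θ' i)) := by
  have hmp := volume_preserving_piFinSuccAbove (fun _ : Fin (K + 1) => ℝ) j
  have hmp' := hmp.symm
  set e := MeasurableEquiv.piFinSuccAbove (fun _ : Fin (K + 1) => ℝ) j with he
  have hes : ∀ p : ℝ × (Fin K → ℝ), e.symm p = (j.insertNth p.1 p.2 : Fin (K + 1) → ℝ) := fun p => rfl
  have h1 : Integrable (fun p : ℝ × (Fin K → ℝ) =>
      Ψ (j.insertNth (P j p.1) (fun i => P (j.succAbove i) (p.2 i))) *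
        (W j p.1 * ∏ i, W (j.succAbove i) (p.2 i))) (volume.prod volume) := by
    have h2 := (hmp'.integrable_comp_emb e.symm.measurableEmbedding).2 hint
    refine h2.congr (Eventually.of_forall fun p => ?_)
    simp only [Function.comp]
    rw [hes p]
    exact prod_split j P W Ψ p.1 p.2
  refine ⟨h1.integral_prod_right, ?_⟩
  have h3 : J P W Ψ = ∫ p : ℝ × (Fin K → ℝ),
      Ψ (j.insertNth (P j p.1) (fun i => P (j.succAbove i) (p.2 i))) *
        (W j p.1 * ∏ i, W (j.succAbove i) (p.2 i)) ∂(volume.prod volume) := by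
    rw [J, ← hmp'.integral_comp e.symm.measurableEmbedding]
    refine integral_congr_ae (Eventually.of_forall fun p => ?_)
    simp only
    rw [hes p]
    exact prod_split j P W Ψ p.1 p.2
  rw [h3, integral_prod_symm _ h1]

theorem J_step {K : ℕ} (j : Fin (K + 1)) {ι : Type*} (S : Finset ι) (P W : Fin (K + 1) → ℝ → ℂ)
    (p w : ι → ℝ → ℂ) (Ψ : (Fin (K + 1) → ℂ) → ℂ)
    (hint : Integrable (fun θ : Fin (K + 1) → ℝ => Ψ (fun j => P j (θ j)) * ∏ j, W j (θ j)))
    (hint' : ∀ κ ∈ S, Integrable (fun θ : Fin (K + 1) → ℝ =>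
      Ψ (fun i => (Function.update P j (p κ)) i (θ i)) * ∏ i, (Function.update W j (w κ)) i (θ i)))
    (hone : ∀ θ' : Fin K → ℝ, (∀ i, W (j.succAbove i) (θ' i) ≠ 0) →
      ∫ x : ℝ, Ψ (j.insertNth (P j x) (fun i => P (j.succAbove i) (θ' i))) * W j x =
      ∑ κ ∈ S, ∫ x : ℝ, Ψ (j.insertNth (p κ x) (fun i => P (j.succAbove i) (θ' i))) * w κ x) :
    J P W Ψ = ∑ κ ∈ S, J (Function.update P j (p κ)) (Function.update W j (w κ)) Ψ := by
  obtain ⟨-, h2⟩ := J_fubini j P W Ψ hint
  have hsP : ∀ κ, ∀ i : Fin K, Function.update P j (p κ) (j.succAbove i) = P (j.succAbove i) :=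
    fun κ i => Function.update_of_ne (Fin.succAbove_ne j i) _ _
  have hsW : ∀ κ, ∀ i : Fin K, Function.update W j (w κ) (j.succAbove i) = W (j.succAbove i) :=
    fun κ i => Function.update_of_ne (Fin.succAbove_ne j i) _ _
  have h3 : ∀ κ ∈ S, Integrable (fun θ' : Fin K → ℝ => ∫ x : ℝ,
      Ψ (j.insertNth (p κ x) (fun i => P (j.succAbove i) (θ' i))) *
        (w κ x * ∏ i, W (j.succAbove i) (θ' i))) ∧
    J (Function.update P j (p κ)) (Function.update W j (w κ)) Ψ = ∫ θ' : Fin K → ℝ, ∫ x : ℝ,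
      Ψ (j.insertNth (p κ x) (fun i => P (j.succAbove i) (θ' i))) *
        (w κ x * ∏ i, W (j.succAbove i) (θ' i)) := by
    intro κ hκ
    have h4 := J_fubini j (Function.update P j (p κ)) (Function.update W j (w κ)) Ψ (hint' κ hκ)
    simp only [Function.update_self, hsP κ, hsW κ] at h4
    exact h4
  rw [h2, Finset.sum_congr rfl fun κ hκ => (h3 κ hκ).2,
    ← integral_finsetSum _ fun κ hκ => (h3 κ hκ).1]
  refine integral_congr_ae (Eventually.of_forall fun θ' => ?_)
  simp only
  have hre : ∀ (q v : ℝ → ℂ), ∫ x : ℝ, Ψ (j.insertNth (q x) (fun i => P (j.succAbove i) (θ' i))) *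
      (v x * ∏ i, W (j.succAbove i) (θ' i)) =
      (∫ x : ℝ, Ψ (j.insertNth (q x) (fun i => P (j.succAbove i) (θ' i))) * v x) *
        ∏ i, W (j.succAbove i) (θ' i) := by
    intro q v
    rw [← integral_mul_const]
    refine integral_congr_ae (Eventually.of_forall fun x => ?_)
    simp only
    ring
  rw [hre (P j) (W j)]
  rw [Finset.sum_congr rfl fun κ _ => hre (p κ) (w κ)]
  by_cases h0 : ∀ i, W (j.succAbove i) (θ' i) ≠ 0
  · rw [hone θ' h0, Finset.sum_mul]
  · push Not at h0
    obtain ⟨i, hi⟩ := h0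
    have hz : ∏ i, W (j.succAbove i) (θ' i) = 0 := Finset.prod_eq_zero (Finset.mem_univ i) hi
    rw [hz]
    simp

/-! ### The paths of the project -/

/-- the weights without truncation -/
def wt0 (σ η H r u : ℝ) (k : Kd) (θ : ℝ) : ℂ :=
  match k with
  | Kd.R => kr u (gam σ η H r k θ) * cexp (gam σ η H r k θ ^ 2) / (2 * Real.pi)
  | Kd.C => kr u (gam σ η H r k θ) * gam σ η H r k θ / (2 * Real.pi)
  | Kd.L => kr u (gam σ η H r k θ) * cexp (gam σ η H r k θ ^ 2) / (2 * Real.pi)
  | Kd.B => -(kr u (gam σ η H r k θ) * cexp (gam σ η H r k θ ^ 2) / (2 * Real.pi * I))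
  | Kd.T => kr u (gam σ η H r k θ) * cexp (gam σ η H r k θ ^ 2) / (2 * Real.pi * I)

theorem wt_eq (σ η H r u : ℝ) (k : Kd) : wt σ η H r u k = (dom σ η H k).indicator (wt0 σ η H r u k) := by
  classical
  funext θ
  by_cases h : θ ∈ dom σ η H k
  · rw [indicator_of_mem h]
    unfold wt
    rw [if_pos h]
    cases k <;> rfl
  · rw [indicator_of_notMem h]
    unfold wt
    rw [if_neg h]

theorem dom_compact (σ η H : ℝ) (k : Kd) : IsCompact (dom σ η H k) := by
  cases k <;> exact isCompact_Icc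

theorem gam_cont (σ η H r : ℝ) (k : Kd) : Continuous (gam σ η H r k) := by
  change Continuous (fun θ => gam σ η H r k θ)
  cases k <;> (simp only [gam]; fun_prop)

theorem gam_re_C (σ η H r θ : ℝ) : (gam σ η H r Kd.C θ).re = r * Real.cos θ := by
  simp only [gam]
  rw [mul_comm I (θ : ℂ), Complex.re_ofReal_mul, Complex.exp_ofReal_mul_I_re]

theorem gam_im_C (σ η H r θ : ℝ) : (gam σ η H r Kd.C θ).im = r * Real.sin θ := by
  simp only [gam]
  rw [mul_comm I (θ : ℂ), Complex.im_ofReal_mul, Complex.exp_ofReal_mul_I_im]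

theorem gam_norm_C (σ η H r θ : ℝ) (hr : 0 < r) : ‖gam σ η H r Kd.C θ‖ = r := by
  simp only [gam]
  rw [mul_comm I (θ : ℂ), norm_mul, Complex.norm_exp_ofReal_mul_I, mul_one, Complex.norm_real,
    Real.norm_of_nonneg hr.le]

theorem gam_ne (σ η H r : ℝ) (hσ : 0 < σ) (hη : 0 < η) (hH : 0 < H) (hr : 0 < r) (k : Kd) (θ : ℝ) :
    gam σ η H r k θ ≠ 0 := by
  cases k with
  | R =>
    intro h
    have := congrArg Complex.re h
    simp [gam] at this
    exact hη.ne' this
  | C =>
    intro h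
    have h1 := gam_norm_C σ η H r θ hr
    rw [h, norm_zero] at h1
    exact hr.ne h1
  | L =>
    intro h
    have := congrArg Complex.re h
    simp [gam] at this
    exact hσ.ne' this
  | B =>
    intro h
    have := congrArg Complex.im h
    simp [gam] at this
    exact hH.ne' this
  | T =>
    intro h
    have := congrArg Complex.im h
    simp [gam] at this
    exact hH.ne' this

theorem kr_cont (u : ℝ) (f : ℝ → ℂ) (hf : Continuous f) (h0 : ∀ θ, f θ ≠ 0) :
    Continuous (fun θ => kr u (f θ)) := by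
  unfold kr
  refine Continuous.div (by fun_prop) (by fun_prop) fun θ => pow_ne_zero 2 (h0 θ)

theorem wt0_cont (σ η H r u : ℝ) (hσ : 0 < σ) (hη : 0 < η) (hH : 0 < H) (hr : 0 < r) (k : Kd) :
    Continuous (wt0 σ η H r u k) := by
  have h1 := gam_cont σ η H r k
  have h2 := kr_cont u _ h1 (gam_ne σ η H r hσ hη hH hr k)
  change Continuous (fun θ => wt0 σ η H r u k θ)
  cases k <;> (simp only [wt0]; fun_prop)

/-- position of the points of the paths -/
theorem gam_box (σ η H r : ℝ) (hr : 0 < r) (h1 : r < σ) (h2 : r < η) (h3 : r < H) (k : Kd) (θ : ℝ)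
    (hθ : θ ∈ dom σ η H k) :
    |(gam σ η H r k θ).im| ≤ H ∧ -σ ≤ (gam σ η H r k θ).re ∧ (gam σ η H r k θ).re ≤ η ∧
      ((k = Kd.C ∨ k = Kd.R) → |(gam σ η H r k θ).re| ≤ η) := by
  cases k with
  | R =>
    have e1 : (gam σ η H r Kd.R θ).im = θ := by simp [gam]
    have e2 : (gam σ η H r Kd.R θ).re = η := by simp [gam]
    rw [e1, e2]
    refine ⟨abs_le.2 hθ, by linarith, le_rfl, fun _ => ?_⟩
    rw [abs_of_pos (by linarith)]
  | C =>
    rw [gam_re_C, gam_im_C]
    have c1 := Real.abs_cos_le_one θ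
    have s1 := Real.abs_sin_le_one θ
    have e1 : |r * Real.cos θ| ≤ r := by
      rw [abs_mul, abs_of_pos hr]; nlinarith
    have e2 : |r * Real.sin θ| ≤ r := by
      rw [abs_mul, abs_of_pos hr]; nlinarith
    have e3 := abs_le.1 e1
    exact ⟨by linarith, by linarith [e3.1], by linarith [e3.2], fun _ => by linarith⟩
  | L =>
    have e1 : (gam σ η H r Kd.L θ).im = θ := by simp [gam]
    have e2 : (gam σ η H r Kd.L θ).re = -σ := by simp [gam]
    rw [e1, e2]
    refine ⟨abs_le.2 hθ, le_rfl, by linarith, fun h => ?_⟩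
    rcases h with h | h <;> cases h
  | B =>
    have e1 : (gam σ η H r Kd.B θ).im = -H := by simp [gam]
    have e2 : (gam σ η H r Kd.B θ).re = θ := by simp [gam]
    rw [e1, e2]
    refine ⟨by rw [abs_neg, abs_of_pos (by linarith)], hθ.1, hθ.2, fun h => ?_⟩
    rcases h with h | h <;> cases h
  | T =>
    have e1 : (gam σ η H r Kd.T θ).im = H := by simp [gam]
    have e2 : (gam σ η H r Kd.T θ).re = θ := by simp [gam]
    rw [e1, e2]
    refine ⟨by rw [abs_of_pos (by linarith)], hθ.1, hθ.2, fun h => ?_⟩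
    rcases h with h | h <;> cases h

theorem mix_box {K : ℕ} (σ η H r : ℝ) (hr : 0 < r) (h1 : r < σ) (h2 : r < η) (h3 : r < H)
    (j : Fin K) (κ : Kd) (θ : Fin K → ℝ) (hθ : ∀ i, θ i ∈ dom σ η H (mix j κ i)) :
    (fun i => gam σ η H r (mix j κ i) (θ i)) ∈ Bx j σ η H := by
  refine ⟨fun i => (gam_box σ η H r hr h1 h2 h3 _ _ (hθ i)).1, fun i hi => ?_, ?_, ?_⟩
  · refine (gam_box σ η H r hr h1 h2 h3 _ _ (hθ i)).2.2.2 ?_
    simp only [mix]
    by_cases h : i < j
    · left; rw [if_pos h]
    · right; rw [if_neg h, if_neg hi]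
  · exact (gam_box σ η H r hr h1 h2 h3 _ _ (hθ j)).2.1
  · exact (gam_box σ η H r hr h1 h2 h3 _ _ (hθ j)).2.2.1

theorem mix_int {K : ℕ} (σ η H r : ℝ) (u : Fin K → ℝ) (Ψ : (Fin K → ℂ) → ℂ)
    (hr : 0 < r) (h1 : r < σ) (h2 : r < η) (h3 : r < H) (j : Fin K) (κ : Kd)
    (hΨ : ContinuousOn Ψ (Bx j σ η H)) :
    Integrable (fun θ : Fin K → ℝ => Ψ (fun i => gam σ η H r (mix j κ i) (θ i)) *
      ∏ i, wt σ η H r (u i) (mix j κ i) (θ i)) :=
  J_integrable (fun i => gam σ η H r (mix j κ i)) (fun i => wt σ η H r (u i) (mix j κ i))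
    (fun i => wt0 σ η H r (u i) (mix j κ i)) (fun i => dom σ η H (mix j κ i)) Ψ (Bx j σ η H)
    (fun i => dom_compact _ _ _ _) (fun i => wt_eq _ _ _ _ _ _)
    (fun i => (wt0_cont _ _ _ _ _ (by linarith) (by linarith) (by linarith) hr _).continuousOn)
    (fun i => (gam_cont _ _ _ _ _).continuousOn) hΨ
    (fun θ hθ => mix_box σ η H r hr h1 h2 h3 j κ θ fun i => hθ i (mem_univ i))

theorem mix_update {K : ℕ} (j : Fin K) (κ κ' : Kd) : mix j κ' = Function.update (mix j κ) j κ' := by
  funext i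
  by_cases h : i = j
  · subst h
    simp [mix]
  · rw [Function.update_of_ne h]
    simp only [mix, if_neg h]

theorem insertNth_upd {K : ℕ} (j : Fin (K + 1)) (z z0 : ℂ) (q : Fin K → ℂ) :
    (j.insertNth z q : Fin (K + 1) → ℂ) = Function.update (j.insertNth z0 q : Fin (K + 1) → ℂ) j z := by
  funext i
  refine Fin.succAboveCases j ?_ ?_ i
  · simp
  · intro i
    rw [Function.update_of_ne (Fin.succAbove_ne j i)]
    simp

theorem tel_step (hD1 : S_D1) {K : ℕ} (σ η H r : ℝ) (u : Fin (K + 1) → ℝ)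
    (Ψ : (Fin (K + 1) → ℂ) → ℂ) (hr : 0 < r) (h1 : r < σ) (h2 : r < η) (h3 : r < H)
    (hu : ∀ j, 0 < u j) (j : Fin (K + 1))
    (hd : ∀ s ∈ Bx j σ η H, DifferentiableAt ℂ (fun z => Ψ (Function.update s j z)) (s j))
    (hc : ContinuousOn Ψ (Bx j σ η H)) :
    hyb σ η H r u (mix j Kd.R) Ψ = hyb σ η H r u (mix j Kd.C) Ψ + (hyb σ η H r u (mix j Kd.L) Ψ +
      hyb σ η H r u (mix j Kd.B) Ψ + hyb σ η H r u (mix j Kd.T) Ψ) := by
  set P : Fin (K + 1) → ℝ → ℂ := fun i => gam σ η H r (mix j Kd.R i) with hP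
  set W : Fin (K + 1) → ℝ → ℂ := fun i => wt σ η H r (u i) (mix j Kd.R i) with hW
  have hPu : ∀ κ : Kd, Function.update P j (gam σ η H r κ) = fun i => gam σ η H r (mix j κ i) := by
    intro κ
    funext i
    by_cases h : i = j
    · subst h
      simp [mix]
    · rw [Function.update_of_ne h]
      simp only [hP, mix, if_neg h]
  have hWu : ∀ κ : Kd, Function.update W j (wt σ η H r (u j) κ) =
      fun i => wt σ η H r (u i) (mix j κ i) := by
    intro κ
    funext i
    by_cases h : i = j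
    · subst h
      simp [mix]
    · rw [Function.update_of_ne h]
      simp only [hW, mix, if_neg h]
  have hint := fun κ => mix_int σ η H r u Ψ hr h1 h2 h3 j κ hc
  have key := J_step j ({Kd.C, Kd.L, Kd.B, Kd.T} : Finset Kd) P W (fun κ => gam σ η H r κ)
    (fun κ => wt σ η H r (u j) κ) Ψ (hint Kd.R)
    (fun κ _ => by
      rw [hPu κ, hWu κ]
      exact hint κ)
    (fun θ' hθ' => by
      have hjR : mix j Kd.R j = Kd.R := by simp [mix]
      have hPj : P j = gam σ η H r Kd.R := by simp only [hP, hjR]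
      have hWj : W j = wt σ η H r (u j) Kd.R := by simp only [hW, hjR]
      rw [hPj, hWj]
      have hdom : ∀ i, θ' i ∈ dom σ η H (mix j Kd.R (j.succAbove i)) := by
        intro i
        by_contra h
        refine hθ' i ?_
        simp only [hW]
        rw [wt_eq, indicator_of_notMem h]
      set q : Fin K → ℂ := fun i => P (j.succAbove i) (θ' i) with hq
      have hbox : ∀ s : ℂ, -σ ≤ s.re → s.re ≤ η → |s.im| ≤ H →
          (j.insertNth s q : Fin (K + 1) → ℂ) ∈ Bx j σ η H := by
        intro s a1 a2 a3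
        refine ⟨fun i => ?_, fun i => ?_, ?_, ?_⟩
        · refine Fin.succAboveCases j ?_ ?_ i
          · simpa using a3
          · intro i
            simpa [hq, hP] using (gam_box σ η H r hr h1 h2 h3 _ _ (hdom i)).1
        · refine Fin.succAboveCases j ?_ ?_ i
          · intro h; exact absurd rfl h
          · intro i hi
            have := (gam_box σ η H r hr h1 h2 h3 _ _ (hdom i)).2.2.2 (by
              simp only [mix]
              by_cases h : j.succAbove i < j
              · left; rw [if_pos h]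
              · right; rw [if_neg h, if_neg hi])
            simpa [hq, hP] using this
        · simpa using a1
        · simpa using a2
      have := hD1 σ η H r (u j) (fun z => Ψ (j.insertNth z q)) hr h1 h2 h3 (hu j) (by
        intro s a1 a2 a3
        have h5 := hd _ (hbox s a1 a2 a3)
        have h6 : (fun z => Ψ (Function.update (j.insertNth s q : Fin (K + 1) → ℂ) j z)) =
            fun z => Ψ (j.insertNth z q) := by
          funext z
          rw [← insertNth_upd j z s q]
        rw [h6] at h5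
        simpa using h5)
      rw [Finset.sum_insert (by decide), Finset.sum_insert (by decide), Finset.sum_insert (by decide),
        Finset.sum_singleton, this]
      ring)
  rw [Finset.sum_insert (by decide), Finset.sum_insert (by decide), Finset.sum_insert (by decide),
    Finset.sum_singleton] at key
  simp only [hPu, hWu] at key
  have e : ∀ κ, hyb σ η H r u (mix j κ) Ψ =
      J (fun i => gam σ η H r (mix j κ i)) (fun i => wt σ η H r (u i) (mix j κ i)) Ψ := fun κ => rfl
  rw [e, e, e, e, e]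
  rw [key]
  ring

theorem hyb_le {K : ℕ} (σ η H r : ℝ) (u : Fin K → ℝ) (k : Fin K → Kd) (Ψ : (Fin K → ℂ) → ℂ) :
    ‖hyb σ η H r u k Ψ‖ ≤ hybn σ η H r u k Ψ := by
  unfold hyb hybn
  refine (norm_integral_le_integral_norm _).trans (le_of_eq ?_)
  refine integral_congr_ae (Eventually.of_forall fun θ => ?_)
  simp only [norm_mul, norm_prod]

/-- circles before `n`, right sides from `n` on -/
def cr' (K n : ℕ) : Fin K → Kd := fun i => if (i : ℕ) < n then Kd.C else Kd.R

theorem mix_R {K : ℕ} (j : Fin K) : mix j Kd.R = cr' K j := by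
  funext i
  simp only [mix, cr', Fin.lt_def]
  by_cases h : (i : ℕ) < j
  · rw [if_pos h, if_pos h]
  · rw [if_neg h, if_neg h, ite_self]

theorem mix_C {K : ℕ} (j : Fin K) : mix j Kd.C = cr' K (j + 1) := by
  funext i
  simp only [mix, cr', Fin.lt_def, Fin.ext_iff]
  by_cases h : (i : ℕ) < j
  · rw [if_pos h, if_pos (by omega)]
  · rw [if_neg h]
    by_cases h2 : (i : ℕ) = j
    · rw [if_pos h2, if_pos (by omega)]
    · rw [if_neg h2, if_neg (by omega)]

theorem t_TEL (hD1 : S_D1) : S_TEL := by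
  intro K σ η H r u Ψ hr h1 h2 h3 hu hd hc
  have hstep : ∀ j : Fin K, hyb σ η H r u (cr' K j) Ψ - hyb σ η H r u (cr' K (j + 1)) Ψ =
      hyb σ η H r u (mix j Kd.L) Ψ + hyb σ η H r u (mix j Kd.B) Ψ + hyb σ η H r u (mix j Kd.T) Ψ := by
    intro j
    obtain ⟨K', rfl⟩ : ∃ K', K = K' + 1 := ⟨K - 1, by have := j.isLt; omega⟩
    have := tel_step hD1 σ η H r u Ψ hr h1 h2 h3 hu j (hd j) (hc j)
    rw [mix_R, mix_C] at this
    rw [this]
    ring
  have htel : hyb σ η H r u (fun _ => Kd.R) Ψ - hyb σ η H r u (fun _ => Kd.C) Ψ =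
      ∑ j : Fin K, (hyb σ η H r u (mix j Kd.L) Ψ + hyb σ η H r u (mix j Kd.B) Ψ +
        hyb σ η H r u (mix j Kd.T) Ψ) := by
    have e0 : cr' K 0 = fun _ => Kd.R := by
      funext i
      simp [cr']
    have eK : cr' K K = fun _ => Kd.C := by
      funext i
      simp [cr', i.isLt]
    rw [← e0, ← eK, ← Finset.sum_range_sub' (fun n => hyb σ η H r u (cr' K n) Ψ) K,
      Finset.sum_range]
    exact Finset.sum_congr rfl fun j _ => hstep j
  rw [htel]
  refine (norm_sum_le _ _).trans (Finset.sum_le_sum fun j _ => ?_)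
  refine (norm_add_le _ _).trans (add_le_add ((norm_add_le _ _).trans (add_le_add ?_ ?_)) ?_) <;>
    exact hyb_le _ _ _ _ _ _ _

/-! ### The radii -/

/-- radius `r'` before `n` and `r` from `n` on -/
def rad (r r' : ℝ) (K n : ℕ) : Fin K → ℝ := fun i => if (i : ℕ) < n then r' else r

theorem t_TEL2 (hD2 : S_D2) : S_TEL2 := by
  intro K σ η H r r' u Ψ hr hrr hu hd hc
  have hr' : 0 < r' := hr.trans_le hrr
  have hrad : ∀ n (i : Fin K), 0 < rad r r' K n i ∧ rad r r' K n i ≤ r' := by
    intro n i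
    simp only [rad]
    split_ifs
    · exact ⟨hr', le_rfl⟩
    · exact ⟨hr, hrr⟩
  set F : ℕ → ℂ := fun n => J (fun i : Fin K => gam σ η H (rad r r' K n i) Kd.C)
    (fun i => wt σ η H (rad r r' K n i) (u i) Kd.C) Ψ with hF
  have hcirc : ∀ ρ : ℝ, 0 < ρ → ∀ v : ℝ, Continuous (wt0 σ η H ρ v Kd.C) := by
    intro ρ hρ v
    have g1 := gam_cont σ η H ρ Kd.C
    have g2 : ∀ θ, gam σ η H ρ Kd.C θ ≠ 0 := fun θ h => by
      have := gam_norm_C σ η H ρ θ hρ
      rw [h, norm_zero] at this
      exact hρ.ne this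
    have g3 := kr_cont v _ g1 g2
    change Continuous (fun θ => wt0 σ η H ρ v Kd.C θ)
    simp only [wt0]
    fun_prop
  have hint : ∀ ρ : Fin K → ℝ, (∀ i, 0 < ρ i ∧ ρ i ≤ r') →
      Integrable (fun θ : Fin K → ℝ => Ψ (fun i => gam σ η H (ρ i) Kd.C (θ i)) *
        ∏ i, wt σ η H (ρ i) (u i) Kd.C (θ i)) := by
    intro ρ hρ
    exact J_integrable (fun i => gam σ η H (ρ i) Kd.C) (fun i => wt σ η H (ρ i) (u i) Kd.C)
      (fun i => wt0 σ η H (ρ i) (u i) Kd.C) (fun i => dom σ η H Kd.C) Ψ {s | ∀ i, ‖s i‖ ≤ r'}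
      (fun i => dom_compact _ _ _ _) (fun i => wt_eq _ _ _ _ _ _)
      (fun i => (hcirc _ (hρ i).1 _).continuousOn)
      (fun i => (gam_cont _ _ _ _ _).continuousOn) hc
      (fun θ _ i => by
        simp only
        rw [gam_norm_C _ _ _ _ _ (hρ i).1]
        exact (hρ i).2)
  have hstep : ∀ j : Fin K, F j = F (j + 1) := by
    intro j
    obtain ⟨K', rfl⟩ : ∃ K', K = K' + 1 := ⟨K - 1, by have := j.isLt; omega⟩
    have hj0 : rad r r' (K' + 1) j j = r := by simp [rad]
    have hj1 : rad r r' (K' + 1) (j + 1) j = r' := by simp [rad]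
    have hne : ∀ i : Fin (K' + 1), i ≠ j → rad r r' (K' + 1) (j + 1) i = rad r r' (K' + 1) j i := by
      intro i hi
      have hi' : (i : ℕ) ≠ j := fun h => hi (Fin.ext h)
      simp only [rad]
      by_cases h : (i : ℕ) < j
      · rw [if_pos h, if_pos (by omega)]
      · rw [if_neg h, if_neg (by omega)]
    have hPu : Function.update (fun i : Fin (K' + 1) => gam σ η H (rad r r' (K' + 1) j i) Kd.C) j
        (gam σ η H r' Kd.C) = fun i => gam σ η H (rad r r' (K' + 1) (j + 1) i) Kd.C := by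
      funext i
      by_cases h : i = j
      · subst h
        rw [Function.update_self, hj1]
      · rw [Function.update_of_ne h, hne i h]
    have hWu : Function.update (fun i : Fin (K' + 1) => wt σ η H (rad r r' (K' + 1) j i) (u i) Kd.C) j
        (wt σ η H r' (u j) Kd.C) = fun i => wt σ η H (rad r r' (K' + 1) (j + 1) i) (u i) Kd.C := by
      funext i
      by_cases h : i = j
      · subst h
        rw [Function.update_self, hj1]
      · rw [Function.update_of_ne h, hne i h]
    have key := J_step j (Finset.univ : Finset Unit)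
      (fun i : Fin (K' + 1) => gam σ η H (rad r r' (K' + 1) j i) Kd.C)
      (fun i : Fin (K' + 1) => wt σ η H (rad r r' (K' + 1) j i) (u i) Kd.C)
      (fun _ => gam σ η H r' Kd.C) (fun _ => wt σ η H r' (u j) Kd.C) Ψ
      (hint _ (hrad j))
      (fun _ _ => by
        rw [hPu, hWu]
        exact hint _ (hrad (j + 1)))
      (fun θ' hθ' => by
        simp only [Finset.univ_unique, Finset.sum_singleton, hj0]
        set q : Fin K' → ℂ := fun i => gam σ η H (rad r r' (K' + 1) j (j.succAbove i)) Kd.C (θ' i) with hq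
        have hqn : ∀ i, ‖q i‖ ≤ r' := by
          intro i
          simp only [hq]
          rw [gam_norm_C _ _ _ _ _ (hrad j _).1]
          exact (hrad j _).2
        refine hD2 σ η H r r' (u j) (fun z => Ψ (j.insertNth z q)) hr hrr (hu j) ?_
        intro s hs
        have hbox : ∀ i, ‖(j.insertNth s q : Fin (K' + 1) → ℂ) i‖ ≤ r' := by
          intro i
          refine Fin.succAboveCases j ?_ ?_ i
          · simpa using hs
          · intro i
            simpa using hqn i
        have h5 := hd j _ hbox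
        have h6 : (fun z => Ψ (Function.update (j.insertNth s q : Fin (K' + 1) → ℂ) j z)) =
            fun z => Ψ (j.insertNth z q) := by
          funext z
          rw [← insertNth_upd j z s q]
        rw [h6] at h5
        simpa using h5)
    simp only [Finset.univ_unique, Finset.sum_singleton] at key
    rw [hPu, hWu] at key
    exact key
  have hall : ∀ n, n ≤ K → F 0 = F n := by
    intro n
    induction n with
    | zero => intro _; rfl
    | succ n ih =>
      intro hn
      rw [ih (by omega)]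
      exact hstep ⟨n, by omega⟩
  have e0 : F 0 = hyb σ η H r u (fun _ => Kd.C) Ψ := by
    simp only [hF, rad, Nat.not_lt_zero, if_false]
    rfl
  have eK : F K = hyb σ η H r' u (fun _ => Kd.C) Ψ := by
    have : ∀ i : Fin K, rad r r' K K i = r' := fun i => by simp [rad, i.isLt]
    simp only [hF, this]
    rfl
  rw [← e0, ← eK, hall K le_rfl]

end

end Pool.Agent.Y22.GP
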